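import Pool.Agent.Lib.Paf8U.Tame

/-!
# Normal sets of involutions containing an element of the centre of a Sylow 2-subgroup

`commGraph D` is the graph `Γ(D)` and `IsNormalInvolutionSet D` says that `D` is a nonempty normal set of involutions
(definitions in `Pool/Agent/Lib/Paf8U/Defs.lean`).
-/

set_option autoImplicit false

open Pool.Agent.Paf8U

namespace Pool.Agent.Results.MP_af8aea_al.CentralCriterion

/-- Let `D` be a normal set of involutions of the finite group `G` and suppose that some element of `D` lies in the centre of
a Sylow 2-subgroup of `G`. Then `Γ(D)` is disconnected if and only if `G` has a transitive action on a set with more than one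
point in which every element of `D` has exactly one fixed point. -/
theorem result {G : Type} [Group G] [Finite G] (D : Set G) (hD : IsNormalInvolutionSet D)
    (hcen : ∃ d ∈ D, ∃ S : Sylow 2 G, d ∈ S ∧ ∀ s ∈ S, s * d = d * s) :
    ¬ (commGraph D).Connected ↔ ∃ H : Subgroup G, H ≠ ⊤ ∧ ∀ d ∈ D, ∃! x : G ⧸ H, d • x = x :=
  tame hD hcen

end Pool.Agent.Results.MP_af8aea_al.CentralCriterion
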