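import Pool.Agent.Lib.Paf8U.Cover

/-!
# Every finite group generated by involutions is a quotient of a disconnected pair

`commGraph D` is the graph `Γ(D)` and `IsNormalInvolutionSet D` says that `D` is a nonempty normal set of involutions
(definitions in `Pool/Agent/Lib/Paf8U/Defs.lean`).
-/

set_option autoImplicit false

open Pool.Agent.Paf8U

namespace Pool.Agent.Results.MP_af8aea_al.Covers

/-- Let `G₀` be a finite group generated by a normal set `D₀` of involutions. There are a finite group `G` generated by a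
normal set `D` of involutions and a surjective homomorphism `π : G → G₀` mapping `D` onto `D₀`, whose kernel is an
elementary abelian 2-group, such that two elements of `D` commute if and only if they have the same image and are conjugate if
and only if their images are conjugate. In particular the components of `Γ(D)` are the fibres of `D → D₀`, so that `Γ(D)` is
disconnected unless `D₀` has only one element, and `D` is a conjugacy class if `D₀` is one. -/
theorem result {G₀ : Type} [Group G₀] [Finite G₀] (D₀ : Set G₀) (hD₀ : IsNormalInvolutionSet D₀)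
    (hgen : Subgroup.closure D₀ = ⊤) :
    ∃ (G : Type) (_ : Group G) (_ : Finite G) (D : Set G) (π : G →* G₀),
      IsNormalInvolutionSet D ∧ Subgroup.closure D = ⊤ ∧ Function.Surjective π ∧ π '' D = D₀ ∧
      (∀ x ∈ π.ker, x * x = 1) ∧ (∀ a ∈ D, ∀ b ∈ D, (a * b = b * a ↔ π a = π b)) ∧
      (∀ a ∈ D, ∀ b ∈ D, (IsConj a b ↔ IsConj (π a) (π b))) ∧
      (¬ (commGraph D).Connected ↔ D₀.Nontrivial) := by
  obtain ⟨G, hG, hF, D, π, h1, h2, h3, h4, h5, h6, h7⟩ := cover_gen D₀ hD₀ hgen
  refine ⟨G, hG, hF, D, π, h1, h2, h3, h4, h5, h6, h7, ?_⟩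
  constructor
  · intro hnc
    by_contra hnt
    rw [Set.not_nontrivial_iff] at hnt
    apply hnc
    rw [SimpleGraph.connected_iff]
    refine ⟨fun a b => ?_, ?_⟩
    · apply reach_of_commute
      rw [h6 _ a.2 _ b.2]
      apply hnt
      · rw [← h4]; exact ⟨a, a.2, rfl⟩
      · rw [← h4]; exact ⟨b, b.2, rfl⟩
    · obtain ⟨d, hd⟩ := h1.1
      exact ⟨⟨d, hd⟩⟩
  · rintro ⟨x, hx, y, hy, hxy⟩ hc
    rw [← h4] at hx hy
    obtain ⟨a, ha, rfl⟩ := hx
    obtain ⟨b, hb, rfl⟩ := hy
    apply hxy
    exact const_of_reach (D := D) π (fun u hu v hv huv => (h6 u hu v hv).1 huv)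
      (hc.preconnected ⟨a, ha⟩ ⟨b, hb⟩)

end Pool.Agent.Results.MP_af8aea_al.Covers
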