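import Mathlib

set_option autoImplicit false

open scoped commutatorElement

namespace Pool.Agent.Results.MP_af8aea_al.OddCoreReduction

/-- The commuting graph on a set `D` of elements of a group: distinct elements are joined when
they commute. -/
def commGraph {G : Type} [Group G] (D : Set G) : SimpleGraph D where
  Adj a b := a ≠ b ∧ (a : G) * b = b * a
  symm := ⟨fun _ _ h => ⟨h.1.symm, h.2.symm⟩⟩
  loopless := ⟨fun _ h => h.1 rfl⟩

/-- A nonempty normal set of involutions. -/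
def IsNormalInvolutionSet {G : Type} [Group G] (D : Set G) : Prop :=
  D.Nonempty ∧ (∀ d ∈ D, orderOf d = 2) ∧ ∀ d ∈ D, ∀ g : G, g⁻¹ * d * g ∈ D

section basic

variable {G H : Type} [Group G] [Group H]

theorem reach_of_commute {D : Set G} (a b : D) (h : (a : G) * b = b * a) :
    (commGraph D).Reachable a b := by
  by_cases hab : a = b
  · rw [hab]
  · exact SimpleGraph.Adj.reachable ⟨hab, h⟩

theorem reach_map {D : Set G} {E : Set H} (f : D → E)
    (hf : ∀ a b : D, (a : G) * b = b * a → (f a : H) * f b = f b * f a) {a b : D}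
    (h : (commGraph D).Reachable a b) : (commGraph E).Reachable (f a) (f b) := by
  obtain ⟨w⟩ := h
  induction w with
  | nil => exact SimpleGraph.Reachable.refl _
  | cons hadj _ ih => exact (reach_of_commute _ _ (hf _ _ hadj.2)).trans ih

theorem connected_image {D : Set G} (f : G →* H) (h : (commGraph D).Connected) :
    (commGraph (f '' D)).Connected := by
  rw [SimpleGraph.connected_iff]
  refine ⟨?_, ?_⟩
  · rintro ⟨_, a, ha, rfl⟩ ⟨_, b, hb, rfl⟩
    exact reach_map (D := D) (E := f '' D) (fun x => ⟨f x, x, x.2, rfl⟩)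
      (fun x y hxy => by
        change f x * f y = f y * f x
        rw [← map_mul, hxy, map_mul]) (h.preconnected ⟨a, ha⟩ ⟨b, hb⟩)
  · obtain ⟨⟨a, ha⟩⟩ := h.nonempty
    exact ⟨⟨f a, a, ha, rfl⟩⟩

end basic


section dihedral

variable {G : Type} [Group G]

theorem not_connected_of_dihedral {D : Set G} {p : ℕ} (hp : p.Prime) (hodd : Odd p)
    (φ : ↥(Subgroup.closure D) →* DihedralGroup p) (hs : Function.Surjective φ)
    (hD : ∀ (d : G) (hd : d ∈ D), ∃ i : ZMod p, φ ⟨d, Subgroup.subset_closure hd⟩ =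
      DihedralGroup.sr i) : ¬ (commGraph D).Connected := by
  intro hc
  have : Fact p.Prime := ⟨hp⟩
  -- commuting elements have the same image
  have h1 : ∀ a b : D, (a : G) * b = b * a →
      φ ⟨a, Subgroup.subset_closure a.2⟩ = φ ⟨b, Subgroup.subset_closure b.2⟩ := by
    intro a b hab
    obtain ⟨i, hi⟩ := hD a a.2
    obtain ⟨j, hj⟩ := hD b b.2
    have h2 : φ ⟨a, Subgroup.subset_closure a.2⟩ * φ ⟨b, Subgroup.subset_closure b.2⟩ =
        φ ⟨b, Subgroup.subset_closure b.2⟩ * φ ⟨a, Subgroup.subset_closure a.2⟩ := by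
      rw [← map_mul, ← map_mul]
      congr 1
      exact Subtype.ext hab
    rw [hi, hj, DihedralGroup.sr_mul_sr, DihedralGroup.sr_mul_sr] at h2
    have h3 : j - i = i - j := by simpa using h2
    have h4 : (2 : ZMod p) * (i - j) = 0 := by linear_combination -h3
    have h5 : (2 : ZMod p) ≠ 0 := by
      intro h6
      have h7 : ((2 : ℕ) : ZMod p) = 0 := by exact_mod_cast h6
      rw [ZMod.natCast_eq_zero_iff] at h7
      have := (Nat.prime_dvd_prime_iff_eq hp Nat.prime_two).mp h7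
      rw [this] at hodd
      exact absurd hodd (by decide)
    have h6 : i - j = 0 := (mul_eq_zero.mp h4).resolve_left h5
    rw [hi, hj, sub_eq_zero.mp h6]
  have h2 : ∀ a b : D, (commGraph D).Reachable a b →
      φ ⟨a, Subgroup.subset_closure a.2⟩ = φ ⟨b, Subgroup.subset_closure b.2⟩ := by
    intro a b hab
    obtain ⟨w⟩ := hab
    induction w with
    | nil => rfl
    | cons hadj _ ih => exact (h1 _ _ hadj.2).trans ih
  obtain ⟨⟨d₀, hd₀⟩⟩ := hc.nonempty
  obtain ⟨i, hi⟩ := hD d₀ hd₀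
  -- the image lies in `{1, sr i}`
  have h3 : ∀ g : ↥(Subgroup.closure D), φ g ∈ Subgroup.zpowers (DihedralGroup.sr i) := by
    rintro ⟨g, hg⟩
    induction hg using Subgroup.closure_induction with
    | mem x hx =>
      rw [h2 ⟨x, hx⟩ ⟨d₀, hd₀⟩ (hc.preconnected _ _), hi]
      exact Subgroup.mem_zpowers _
    | one =>
      have : (⟨1, Subgroup.one_mem _⟩ : ↥(Subgroup.closure D)) = 1 := rfl
      rw [this, map_one]
      exact Subgroup.one_mem _
    | mul x y hx hy h4 h5 =>
      have : (⟨x * y, Subgroup.mul_mem _ hx hy⟩ : ↥(Subgroup.closure D)) = ⟨x, hx⟩ * ⟨y, hy⟩ := rfl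
      rw [this, map_mul]
      exact Subgroup.mul_mem _ h4 h5
    | inv x hx h4 =>
      have : (⟨x⁻¹, Subgroup.inv_mem _ hx⟩ : ↥(Subgroup.closure D)) = ⟨x, hx⟩⁻¹ := rfl
      rw [this, map_inv]
      exact Subgroup.inv_mem _ h4
  have h4 : Subgroup.zpowers (DihedralGroup.sr i : DihedralGroup p) = ⊤ := by
    rw [eq_top_iff]
    intro x _
    obtain ⟨g, rfl⟩ := hs x
    exact h3 g
  have h5 := Nat.card_zpowers (DihedralGroup.sr i : DihedralGroup p)
  rw [h4, DihedralGroup.orderOf_sr, Subgroup.card_top, DihedralGroup.nat_card] at h5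
  have := hp.two_le
  omega

end dihedral

section component

variable {G : Type} [Group G]

/-- Conjugation on `D`. -/
def cj {D : Set G} (hD : ∀ d ∈ D, ∀ g : G, g⁻¹ * d * g ∈ D) (g : G) (d : D) : D :=
  ⟨g * d * g⁻¹, by simpa using hD d d.2 g⁻¹⟩

theorem reach_cj {D : Set G} (hD : ∀ d ∈ D, ∀ g : G, g⁻¹ * d * g ∈ D) (g : G) {a b : D}
    (h : (commGraph D).Reachable a b) : (commGraph D).Reachable (cj hD g a) (cj hD g b) :=
  reach_map (D := D) (E := D) (cj hD g) (fun x y hxy => by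
    change (g * x * g⁻¹) * (g * y * g⁻¹) = (g * y * g⁻¹) * (g * x * g⁻¹)
    have : (g * x * g⁻¹) * (g * y * g⁻¹) = g * (x * y) * g⁻¹ := by group
    rw [this, hxy]
    group) h

theorem cj_mul {D : Set G} (hD : ∀ d ∈ D, ∀ g : G, g⁻¹ * d * g ∈ D) (g h : G) (d : D) :
    cj hD (g * h) d = cj hD g (cj hD h d) := by
  apply Subtype.ext
  change (g * h) * d * (g * h)⁻¹ = g * (h * d * h⁻¹) * g⁻¹
  group

theorem cj_one {D : Set G} (hD : ∀ d ∈ D, ∀ g : G, g⁻¹ * d * g ∈ D) (d : D) :
    cj hD 1 d = d := by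
  apply Subtype.ext
  change 1 * (d : G) * 1⁻¹ = d
  group

/-- The stabiliser of the component of `d₀`. -/
def stab {D : Set G} (hD : ∀ d ∈ D, ∀ g : G, g⁻¹ * d * g ∈ D) (d₀ : D) : Subgroup G where
  carrier := {g | (commGraph D).Reachable d₀ (cj hD g d₀)}
  mul_mem' := by
    intro g h hg hh
    change (commGraph D).Reachable d₀ (cj hD (g * h) d₀)
    rw [cj_mul]
    exact SimpleGraph.Reachable.trans hg (reach_cj hD g hh)
  one_mem' := by
    change (commGraph D).Reachable d₀ (cj hD 1 d₀)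
    rw [cj_one]
  inv_mem' := by
    intro g hg
    change (commGraph D).Reachable d₀ (cj hD g⁻¹ d₀)
    have := reach_cj hD g⁻¹ hg
    rw [← cj_mul, inv_mul_cancel, cj_one] at this
    exact this.symm

theorem mem_stab {D : Set G} (hD : ∀ d ∈ D, ∀ g : G, g⁻¹ * d * g ∈ D) (d₀ : D) (g : G) :
    g ∈ stab hD d₀ ↔ (commGraph D).Reachable d₀ (cj hD g d₀) := Iff.rfl

end component

section key

variable {G : Type} [Group G]

/-- Twisting inside a subgroup of odd order so that two involutions commute. -/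
theorem twist {A : Subgroup G} (hodd : Odd (Nat.card ↥A)) {d e : G} (hd : d * d = 1) (he : e * e = 1)
    (hde : (d * e) * (d * e) ∈ A) :
    ∃ b ∈ A, d * (b * e * b⁻¹) = (b * e * b⁻¹) * d := by
  -- b = (de)^(2k) with 4k = 1 mod |A|
  obtain ⟨n, hn⟩ := hodd
  set m : G := (d * e) * (d * e) with hm
  have hmpow : m ^ (2 * n + 1) = 1 := by
    have := pow_card_eq_one' (x := (⟨m, hde⟩ : ↥A))
    rw [hn] at this
    simpa using congrArg Subtype.val this
  have hd' : d⁻¹ = d := inv_eq_of_mul_eq_one_right hd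
  have he' : e⁻¹ = e := inv_eq_of_mul_eq_one_right he
  have hdm : d * m * d = m⁻¹ := by
    have h1 : d * m * d = (d * d) * e * d * e * d := by rw [hm]; group
    rw [h1, hd, one_mul, hm]
    simp only [mul_inv_rev, hd', he']
    group
  have hem : e * m * e = m⁻¹ := by
    have h1 : e * m * e = e * d * e * d * (e * e) := by rw [hm]; group
    rw [h1, he, mul_one, hm]
    simp only [mul_inv_rev, hd', he']
    group
  -- choose c with c ^ 4 = m and c a power of m
  obtain ⟨k, hk⟩ : ∃ k : ℕ, m ^ (4 * k) = m := by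
    refine ⟨(n + 1) ^ 2, ?_⟩
    have : 4 * (n + 1) ^ 2 = (2 * n + 1) * (2 * n + 3) + 1 := by ring
    rw [this, pow_succ, pow_mul, hmpow, one_pow, one_mul]
  have hpow : ∀ j : ℕ, d * m ^ j * d = (m ^ j)⁻¹ := by
    intro j
    induction j with
    | zero => simpa using hd
    | succ j ih =>
      have : d * m ^ (j + 1) * d = (d * m ^ j * d) * (d⁻¹ * m * d) := by
        rw [pow_succ]
        group
      rw [this, ih, hd', hdm, pow_succ' m j]
      exact (mul_inv_rev m (m ^ j)).symm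
  have hpow' : ∀ j : ℕ, e * m ^ j * e = (m ^ j)⁻¹ := by
    intro j
    induction j with
    | zero => simpa using he
    | succ j ih =>
      have : e * m ^ (j + 1) * e = (e * m ^ j * e) * (e⁻¹ * m * e) := by
        rw [pow_succ]
        group
      rw [this, ih, he', hem, pow_succ' m j]
      exact (mul_inv_rev m (m ^ j)).symm
  refine ⟨m ^ k, A.pow_mem hde k, ?_⟩
  set c : G := m ^ k with hc
  have hdc : d * c * d = c⁻¹ := hpow k
  have hec : e * c * e = c⁻¹ := hpow' k
  have hc4 : c * c * (c * c) = m := by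
    rw [← hk, hc, ← pow_add, ← pow_add]
    congr 1
    ring
  have hec' : e * c⁻¹ = c * e := by
    have h1 : e * c⁻¹ = e * (e * c * e) := by rw [hec]
    rw [h1, ← mul_assoc, ← mul_assoc, he, one_mul]
  have hce : c * e * c⁻¹ = c * c * e := by
    rw [mul_assoc, hec', ← mul_assoc]
  have hdc' : d * c = c⁻¹ * d := by
    have h1 : c⁻¹ * d = (d * c * d) * d := by rw [hdc]
    rw [h1, mul_assoc, hd, mul_one]
  rw [hce]
  -- goal : d * (c * c * e) = c * c * e * d
  have h1 : d * (c * c * e) = c⁻¹ * c⁻¹ * (d * e) := by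
    have e1 : d * (c * c * e) = (d * c) * (c * e) := by group
    have e2 : c⁻¹ * d * (c * e) = c⁻¹ * (d * c) * e := by group
    have e3 : c⁻¹ * (c⁻¹ * d) * e = c⁻¹ * c⁻¹ * (d * e) := by group
    rw [e1, hdc', e2, hdc', e3]
  have h2 : c * c * (c * c) * (e * d) = d * e := by
    rw [hc4, hm]
    have h3 : (d * e) * (d * e) * (e * d) = d * e * d * (e * e) * d := by group
    have h4 : d * e * d * d = d * e * (d * d) := by group
    rw [h3, he, mul_one, h4, hd, mul_one]
  rw [h1, ← h2]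
  simp only [mul_assoc, inv_mul_cancel_left]

theorem transitive_step {D : Set G} (hinv : ∀ d ∈ D, orderOf d = 2)
    (hD : ∀ d ∈ D, ∀ g : G, g⁻¹ * d * g ∈ D) {A : Subgroup G} (hA : A.Normal) (hodd : Odd (Nat.card ↥A))
    (hc : (commGraph ((QuotientGroup.mk' A) '' D)).Connected) (d₀ e : D) :
    ∃ a ∈ A, (commGraph D).Reachable d₀ (cj hD a e) := by
  have hsq : ∀ d ∈ D, d * d = 1 := by
    intro d hd
    rw [← pow_two, ← hinv d hd]
    exact pow_orderOf_eq_one d
  -- the step
  have step : ∀ d e : D, (QuotientGroup.mk' A d) * (QuotientGroup.mk' A e) =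
      (QuotientGroup.mk' A e) * (QuotientGroup.mk' A d) →
      (∃ a ∈ A, (commGraph D).Reachable d₀ (cj hD a d)) →
      ∃ a ∈ A, (commGraph D).Reachable d₀ (cj hD a e) := by
    rintro d e hde ⟨a, ha, hr⟩
    have h1 : ((cj hD a d : D) * (cj hD a e : D) : G) * ((cj hD a d : D) * (cj hD a e : D) : G) ∈ A := by
      have h2 : ((d : G) * e) * ((d : G) * e) ∈ A := by
        rw [← QuotientGroup.eq_one_iff]
        have h3 : ((((d : G) * e) * ((d : G) * e) : G) : G ⧸ A) =
            (QuotientGroup.mk' A d * QuotientGroup.mk' A e) *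
            (QuotientGroup.mk' A d * QuotientGroup.mk' A e) := rfl
        rw [h3]
        nth_rewrite 2 [hde]
        have h4 : QuotientGroup.mk' A (d : G) * QuotientGroup.mk' A e *
            (QuotientGroup.mk' A e * QuotientGroup.mk' A d) =
            QuotientGroup.mk' A ((d : G) * (e * e) * d) := by
          simp only [map_mul]
          group
        rw [h4, hsq e e.2, mul_one, hsq d d.2, map_one]
      have h3 : ((cj hD a d : D) * (cj hD a e : D) : G) * ((cj hD a d : D) * (cj hD a e : D) : G) =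
          a * (((d : G) * e) * ((d : G) * e)) * a⁻¹ := by
        change (a * d * a⁻¹) * (a * e * a⁻¹) * ((a * d * a⁻¹) * (a * e * a⁻¹)) = _
        group
      rw [h3]
      exact hA.conj_mem _ h2 a
    obtain ⟨b, hb, hcomm⟩ := twist hodd (hsq _ (cj hD a d).2) (hsq _ (cj hD a e).2) h1
    refine ⟨b * a, A.mul_mem hb ha, hr.trans ?_⟩
    rw [cj_mul]
    exact reach_of_commute _ _ hcomm
  -- propagate along a path of the quotient graph
  have key : ∀ x y : ((QuotientGroup.mk' A) '' D : Set (G ⧸ A)),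
      (commGraph ((QuotientGroup.mk' A) '' D)).Reachable x y →
      (∀ d : D, QuotientGroup.mk' A d = x → ∃ a ∈ A, (commGraph D).Reachable d₀ (cj hD a d)) →
      ∀ d : D, QuotientGroup.mk' A d = y → ∃ a ∈ A, (commGraph D).Reachable d₀ (cj hD a d) := by
    intro x y hxy
    obtain ⟨w⟩ := hxy
    induction w with
    | nil => exact fun h => h
    | @cons u v w hadj _ ih =>
      intro h
      apply ih
      intro d hd
      obtain ⟨e, he, heu⟩ := u.2
      have hde : (QuotientGroup.mk' A (⟨e, he⟩ : D)) * (QuotientGroup.mk' A d) =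
          (QuotientGroup.mk' A d) * (QuotientGroup.mk' A (⟨e, he⟩ : D)) := by
        rw [hd]
        change QuotientGroup.mk' A e * _ = _ * QuotientGroup.mk' A e
        rw [heu]
        exact hadj.2
      exact step ⟨e, he⟩ d hde (h ⟨e, he⟩ heu)
  refine key ⟨QuotientGroup.mk' A d₀, d₀, d₀.2, rfl⟩ ⟨QuotientGroup.mk' A e, e, e.2, rfl⟩
    (hc.preconnected _ _) ?_ e rfl
  intro d hd
  have hd1 : QuotientGroup.mk' A (d : G) = QuotientGroup.mk' A (d₀ : G) := hd
  refine step d₀ d (by rw [hd1]) ⟨1, A.one_mem, ?_⟩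
  rw [cj_one]

end key

theorem exists_prime_index (H : Type) [Group H] [Finite H] (h : commutator H ≠ ⊤) :
    ∃ B : Subgroup H, B.Normal ∧ B.index.Prime := by
  obtain hB | ⟨B, hB, hle⟩ := eq_top_or_exists_le_coatom (commutator H)
  · exact absurd hB h
  have hn : B.Normal := by
    constructor
    intro b hb g
    have h1 : ⁅g, b⁆ ∈ B := hle (Subgroup.commutator_mem_commutator (Subgroup.mem_top _)
      (Subgroup.mem_top _))
    have h2 := B.mul_mem h1 hb
    simpa [commutatorElement_def] using h2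
  refine ⟨B, hn, ?_⟩
  have hcomm : ∀ a b : H ⧸ B, a * b = b * a := by
    intro a b
    obtain ⟨x, rfl⟩ := QuotientGroup.mk_surjective a
    obtain ⟨y, rfl⟩ := QuotientGroup.mk_surjective b
    rw [← QuotientGroup.mk_mul, ← QuotientGroup.mk_mul]
    apply QuotientGroup.eq.mpr
    have h1 : ⁅y⁻¹, x⁻¹⁆ ∈ B := hle (Subgroup.commutator_mem_commutator (Subgroup.mem_top _)
      (Subgroup.mem_top _))
    have h2 : (x * y)⁻¹ * (y * x) = ⁅y⁻¹, x⁻¹⁆ := by
      rw [commutatorElement_def]; group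
    rw [h2]
    exact h1
  let _ : CommGroup (H ⧸ B) := { (inferInstance : Group (H ⧸ B)) with mul_comm := hcomm }
  have hs : IsSimpleGroup (H ⧸ B) := by
    refine { exists_pair_ne := ?_, eq_bot_or_eq_top_of_normal := ?_ }
    · by_contra hcon
      push Not at hcon
      apply hB.1
      rw [eq_top_iff]
      intro x _
      exact (QuotientGroup.eq_one_iff x).mp (hcon _ _)
    · intro N _
      have hBN : B ≤ N.comap (QuotientGroup.mk' B) := by
        intro b hb
        rw [Subgroup.mem_comap]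
        have : QuotientGroup.mk' B b = 1 := (QuotientGroup.eq_one_iff b).mpr hb
        rw [this]
        exact N.one_mem
      rcases hBN.eq_or_lt with heq | hlt
      · left
        rw [Subgroup.eq_bot_iff_forall]
        intro x hx
        obtain ⟨y, rfl⟩ := QuotientGroup.mk_surjective x
        apply (QuotientGroup.eq_one_iff y).mpr
        rw [heq]
        exact hx
      · right
        have := hB.2 _ hlt
        rw [eq_top_iff]
        intro x _
        obtain ⟨y, rfl⟩ := QuotientGroup.mk_surjective x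
        have hy : y ∈ N.comap (QuotientGroup.mk' B) := by rw [this]; exact Subgroup.mem_top _
        exact hy
  exact IsSimpleGroup.prime_card (α := H ⧸ B)

section keylemma

variable {G : Type} [Group G]

theorem stab_facts {D : Set G} (hinv : ∀ d ∈ D, orderOf d = 2)
    (hD : ∀ d ∈ D, ∀ g : G, g⁻¹ * d * g ∈ D) {A : Subgroup G} (hA : A.Normal)
    (hab : ∀ a ∈ A, ∀ b ∈ A, a * b = b * a) (hodd : Odd (Nat.card ↥A))
    (hmin : ∀ B : Subgroup G, B.Normal → B ≤ A → B = ⊥ ∨ B = A)
    (hc : (commGraph ((QuotientGroup.mk' A) '' D)).Connected) (hnc : ¬ (commGraph D).Connected)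
    (d₀ : D) :
    (∀ g : G, ∃ a ∈ A, a⁻¹ * g ∈ stab hD d₀) ∧ (∀ a ∈ A, a ∈ stab hD d₀ → a = 1) ∧
      (∀ a ∈ A, (d₀ : G) * a * (d₀ : G)⁻¹ = a⁻¹) := by
  have h1 : ∀ g : G, ∃ a ∈ A, a⁻¹ * g ∈ stab hD d₀ := by
    intro g
    obtain ⟨a, ha, hr⟩ := transitive_step hinv hD hA hodd hc d₀ (cj hD g d₀)
    refine ⟨a⁻¹, A.inv_mem ha, ?_⟩
    rw [inv_inv, mem_stab, cj_mul]
    exact hr
  have h2 : stab hD d₀ ⊓ A = ⊥ := by
    have hn : (stab hD d₀ ⊓ A).Normal := by
      constructor
      intro x hx g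
      obtain ⟨a, ha, hag⟩ := h1 g
      have hx' : (a⁻¹ * g) * x * (a⁻¹ * g)⁻¹ ∈ stab hD d₀ ⊓ A := by
        refine ⟨?_, ?_⟩
        · exact (stab hD d₀).mul_mem ((stab hD d₀).mul_mem hag hx.1) ((stab hD d₀).inv_mem hag)
        · exact hA.conj_mem x hx.2 _
      have h3 : g * x * g⁻¹ = a * ((a⁻¹ * g) * x * (a⁻¹ * g)⁻¹) * a⁻¹ := by group
      rw [h3, hab a ha _ hx'.2, mul_inv_cancel_right]
      exact hx'
    rcases hmin _ hn inf_le_right with h | h
    · exact h
    · exfalso
      apply hnc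
      rw [SimpleGraph.connected_iff]
      refine ⟨?_, ⟨d₀⟩⟩
      have h3 : ∀ e : D, (commGraph D).Reachable d₀ e := by
        intro e
        obtain ⟨a, ha, hr⟩ := transitive_step hinv hD hA hodd hc d₀ e
        have h4 : a⁻¹ ∈ stab hD d₀ := by
          have : a⁻¹ ∈ stab hD d₀ ⊓ A := by rw [h]; exact A.inv_mem ha
          exact this.1
        have h5 := reach_cj hD a⁻¹ hr
        rw [← cj_mul, inv_mul_cancel, cj_one] at h5
        exact SimpleGraph.Reachable.trans h4 h5
      intro a b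
      exact (h3 a).symm.trans (h3 b)
  have h3 : ∀ a ∈ A, a ∈ stab hD d₀ → a = 1 := by
    intro a ha ha'
    have : a ∈ stab hD d₀ ⊓ A := ⟨ha', ha⟩
    rw [h2] at this
    exact Subgroup.mem_bot.mp this
  refine ⟨h1, h3, ?_⟩
  intro a ha
  have hsq : (d₀ : G) * d₀ = 1 := by
    rw [← pow_two, ← hinv d₀ d₀.2]
    exact pow_orderOf_eq_one _
  have hdinv : (d₀ : G)⁻¹ = d₀ := inv_eq_of_mul_eq_one_right hsq
  have hda : (d₀ : G) * a * (d₀ : G)⁻¹ ∈ A := hA.conj_mem a ha _
  have hx : (d₀ : G) * a * (d₀ : G)⁻¹ * a ∈ A := A.mul_mem hda ha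
  have hcomm : (d₀ : G) * ((d₀ : G) * a * (d₀ : G)⁻¹ * a) * (d₀ : G)⁻¹ =
      (d₀ : G) * a * (d₀ : G)⁻¹ * a := by
    have e1 : (d₀ : G) * ((d₀ : G) * a * (d₀ : G)⁻¹ * a) * (d₀ : G)⁻¹ =
        ((d₀ : G) * d₀) * a * ((d₀ : G)⁻¹ * a * (d₀ : G)⁻¹) := by group
    rw [e1, hsq, one_mul]
    have e2 : (d₀ : G)⁻¹ * a * (d₀ : G)⁻¹ = (d₀ : G) * a * (d₀ : G)⁻¹ := by rw [hdinv]
    rw [e2]
    exact hab a ha _ hda
  have hst : (d₀ : G) * a * (d₀ : G)⁻¹ * a ∈ stab hD d₀ := by
    rw [mem_stab]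
    have : cj hD ((d₀ : G) * a * (d₀ : G)⁻¹ * a) d₀ = d₀ := by
      apply Subtype.ext
      change ((d₀ : G) * a * (d₀ : G)⁻¹ * a) * d₀ * ((d₀ : G) * a * (d₀ : G)⁻¹ * a)⁻¹ = d₀
      have h4 : ((d₀ : G) * a * (d₀ : G)⁻¹ * a) * d₀ = d₀ * ((d₀ : G) * a * (d₀ : G)⁻¹ * a) := by
        nth_rewrite 1 [← hcomm]
        group
      rw [h4, mul_inv_cancel_right]
    rw [this]
  have := h3 _ hx hst
  exact eq_inv_of_mul_eq_one_left this

theorem key_lemma [Finite G] {D : Set G} (hne : D.Nonempty) (hinv : ∀ d ∈ D, orderOf d = 2)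
    (hD : ∀ d ∈ D, ∀ g : G, g⁻¹ * d * g ∈ D) {A : Subgroup G} (hA : A.Normal)
    (hab : ∀ a ∈ A, ∀ b ∈ A, a * b = b * a) (hodd : Odd (Nat.card ↥A)) (hAne : A ≠ ⊥)
    (hmin : ∀ B : Subgroup G, B.Normal → B ≤ A → B = ⊥ ∨ B = A)
    (hc : (commGraph ((QuotientGroup.mk' A) '' D)).Connected)
    (hnc : ¬ (commGraph D).Connected) :
    ∃ p : ℕ, p.Prime ∧ Odd p ∧ ∃ φ : ↥(Subgroup.closure D) →* DihedralGroup p,
      Function.Surjective φ ∧ ∀ (d : G) (hd : d ∈ D), ∃ i : ZMod p,
        φ ⟨d, Subgroup.subset_closure hd⟩ = DihedralGroup.sr i := by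
  classical
  obtain ⟨d₀', hd₀'⟩ := hne
  set d₀ : D := ⟨d₀', hd₀'⟩ with hd₀def
  obtain ⟨h1, h2, _⟩ := stab_facts hinv hD hA hab hodd hmin hc hnc d₀
  have h3 : ∀ d ∈ D, ∀ a ∈ A, d * a * d⁻¹ = a⁻¹ := fun d hd a ha =>
    (stab_facts hinv hD hA hab hodd hmin hc hnc ⟨d, hd⟩).2.2 a ha
  -- the sign
  have hsign : ∀ g ∈ Subgroup.closure D, (∀ a ∈ A, g * a * g⁻¹ = a) ∨
      (∀ a ∈ A, g * a * g⁻¹ = a⁻¹) := by
    intro g hg
    induction hg using Subgroup.closure_induction with
    | mem x hx => exact Or.inr (h3 x hx)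
    | one => exact Or.inl fun a _ => by group
    | mul x y _ _ hx hy =>
      have e : ∀ a : G, x * y * a * (x * y)⁻¹ = x * (y * a * y⁻¹) * x⁻¹ := fun a => by group
      rcases hx with hx | hx <;> rcases hy with hy | hy
      · exact Or.inl fun a ha => by rw [e, hy a ha, hx a ha]
      · exact Or.inr fun a ha => by rw [e, hy a ha, hx _ (A.inv_mem ha)]
      · exact Or.inr fun a ha => by rw [e, hy a ha, hx a ha]
      · exact Or.inl fun a ha => by rw [e, hy a ha, hx _ (A.inv_mem ha), inv_inv]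
    | inv x _ hx =>
      rcases hx with hx | hx
      · refine Or.inl fun a ha => ?_
        nth_rewrite 1 [← hx a ha]
        group
      · refine Or.inr fun a ha => ?_
        have := hx _ (A.inv_mem ha)
        rw [inv_inv] at this
        nth_rewrite 1 [← this]
        group
  -- odd order facts
  obtain ⟨n, hn⟩ := hodd
  have hpow : ∀ a ∈ A, a ^ (2 * n + 1) = 1 := by
    intro a ha
    have := pow_card_eq_one' (x := (⟨a, ha⟩ : ↥A))
    rw [hn] at this
    simpa using congrArg Subtype.val this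
  have hinvne : ∀ a ∈ A, a = a⁻¹ → a = 1 := by
    intro a ha h
    have h4 : a * a = 1 := by nth_rewrite 2 [h]; exact mul_inv_cancel a
    have h5 := hpow a ha
    rw [pow_succ, pow_mul, pow_two, h4, one_pow, one_mul] at h5
    exact h5
  obtain ⟨a₀, ha₀, ha₀ne⟩ : ∃ a ∈ A, a ≠ 1 := by
    by_contra hcon
    push Not at hcon
    exact hAne ((Subgroup.eq_bot_iff_forall A).mpr hcon)
  have hsign' : ∀ g ∈ Subgroup.closure D, ¬ (∀ a ∈ A, g * a * g⁻¹ = a) →
      (∀ a ∈ A, g * a * g⁻¹ = a⁻¹) := fun g hg h => (hsign g hg).resolve_left h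
  have hnotboth : ∀ g : G, (∀ a ∈ A, g * a * g⁻¹ = a⁻¹) → ¬ (∀ a ∈ A, g * a * g⁻¹ = a) := by
    intro g h4 h5
    exact ha₀ne (hinvne a₀ ha₀ ((h5 a₀ ha₀).symm.trans (h4 a₀ ha₀)))
  -- A ≤ closure D
  have hAcl : A ≤ Subgroup.closure D := by
    intro a ha
    have h4 : a ^ 2 ∈ Subgroup.closure D := by
      have h5 : a ^ 2 = (a * (d₀ : G) * a⁻¹) * (d₀ : G)⁻¹ := by
        have h6 : a * (d₀ : G) * a⁻¹ * (d₀ : G)⁻¹ = a * ((d₀ : G) * a⁻¹ * (d₀ : G)⁻¹) := by group
        rw [h6, h3 d₀ d₀.2 _ (A.inv_mem ha), inv_inv, pow_two]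
      rw [h5]
      refine Subgroup.mul_mem _ (Subgroup.subset_closure ?_)
        (Subgroup.inv_mem _ (Subgroup.subset_closure d₀.2))
      simpa using hD d₀ d₀.2 a⁻¹
    have h5 : a = (a ^ 2) ^ (n + 1) := by
      rw [← pow_mul]
      have : 2 * (n + 1) = (2 * n + 1) + 1 := by ring
      rw [this, pow_succ, hpow a ha, one_mul]
    rw [h5]
    exact Subgroup.pow_mem _ h4 _
  -- a linear functional
  have hcomA : commutator ↥A ≠ ⊤ := by
    intro h
    have h4 : commutator ↥A = ⊥ := by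
      rw [commutator_def, Subgroup.commutator_eq_bot_iff_le_centralizer]
      intro x _
      rw [Subgroup.mem_centralizer_iff]
      intro y _
      exact Subtype.ext (hab _ y.2 _ x.2)
    rw [h4] at h
    have : (⟨a₀, ha₀⟩ : ↥A) ∈ (⊥ : Subgroup ↥A) := by rw [h]; exact Subgroup.mem_top _
    exact ha₀ne (congrArg Subtype.val (Subgroup.mem_bot.mp this))
  obtain ⟨B, hBn, hBp⟩ := exists_prime_index ↥A hcomA
  set p := B.index with hpdef
  have hpodd : Odd p := by
    have h4 : p ∣ Nat.card ↥A := B.index_dvd_card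
    rw [hn] at h4
    exact (Odd.of_dvd_nat ⟨n, rfl⟩ h4)
  have : Fact p.Prime := ⟨hBp⟩
  have hcardQ : Nat.card (↥A ⧸ B) = p := rfl
  have hcardZ : Nat.card (Multiplicative (ZMod p)) = p := by
    rw [Nat.card_congr Multiplicative.toAdd, Nat.card_zmod]
  let lamM : ↥A →* Multiplicative (ZMod p) :=
    (mulEquivOfPrimeCardEq hcardQ hcardZ).toMonoidHom.comp (QuotientGroup.mk' B)
  have hlamS : Function.Surjective lamM :=
    (mulEquivOfPrimeCardEq hcardQ hcardZ).surjective.comp (QuotientGroup.mk'_surjective B)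
  let lam : ↥A → ZMod p := fun a => Multiplicative.toAdd (lamM a)
  have lam_mul : ∀ a b : ↥A, lam (a * b) = lam a + lam b := fun a b => by
    change Multiplicative.toAdd (lamM (a * b)) = _
    rw [map_mul]
    rfl
  have lam_inv : ∀ a : ↥A, lam a⁻¹ = - lam a := fun a => by
    change Multiplicative.toAdd (lamM a⁻¹) = _
    rw [map_inv]
    rfl
  have lam_surj : ∀ i : ZMod p, ∃ a : ↥A, lam a = i := fun i => by
    obtain ⟨a, ha⟩ := hlamS (Multiplicative.ofAdd i)
    exact ⟨a, by change Multiplicative.toAdd (lamM a) = i; rw [ha]; rfl⟩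
  -- the coordinate τ
  choose τ' hτ'A hτ'H using h1
  let τ : G → ↥A := fun g => ⟨τ' g, hτ'A g⟩
  have hτ : ∀ (g : G) (a : ↥A), (a : G)⁻¹ * g ∈ stab hD d₀ → τ g = a := by
    intro g a ha
    have h4 : (τ' g)⁻¹ * g ∈ stab hD d₀ := hτ'H g
    have h5 : (a : G)⁻¹ * τ' g ∈ stab hD d₀ := by
      have : (a : G)⁻¹ * τ' g = ((a : G)⁻¹ * g) * ((τ' g)⁻¹ * g)⁻¹ := by group
      rw [this]
      exact (stab hD d₀).mul_mem ha ((stab hD d₀).inv_mem h4)
    have h6 := h2 _ (A.mul_mem (A.inv_mem a.2) (hτ'A g)) h5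
    apply Subtype.ext
    change τ' g = a
    exact (eq_of_inv_mul_eq_one h6).symm
  -- τ of a product
  have hτmul : ∀ (g g' : G) (b : ↥A), g * (τ g' : G) * g⁻¹ = b → τ (g * g') = τ g * b := by
    intro g g' b hb
    apply hτ
    -- (τ g * b)⁻¹ * (g g') = [(τ g)⁻¹ g] * [(τ g')⁻¹ g']
    have h4 : ((τ g * b : ↥A) : G)⁻¹ * (g * g') =
        ((τ' g)⁻¹ * g) * ((τ' g')⁻¹ * g') := by
      have hb' : (b : G) * (τ' g)  = (τ' g) * b := hab _ b.2 _ (hτ'A g)
      have h5 : ((τ g * b : ↥A) : G) = (b : G) * τ' g := by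
        rw [hb']; rfl
      have h6 : (b : G)⁻¹ = g * (τ' g')⁻¹ * g⁻¹ := by
        rw [← hb]
        change (g * τ' g' * g⁻¹)⁻¹ = _
        group
      rw [h5, mul_inv_rev, h6]
      group
    rw [h4]
    exact (stab hD d₀).mul_mem (hτ'H g) (hτ'H g')
  -- the homomorphism
  let φf : G → DihedralGroup p := fun g =>
    if (∀ a ∈ A, g * a * g⁻¹ = a) then DihedralGroup.r (lam (τ g))
    else DihedralGroup.sr (-(lam (τ g)))
  have φ_one_of : ∀ g : G, (∀ a ∈ A, g * a * g⁻¹ = a) → φf g = DihedralGroup.r (lam (τ g)) :=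
    fun g h => if_pos h
  have φ_neg_of : ∀ g : G, (∀ a ∈ A, g * a * g⁻¹ = a⁻¹) →
      φf g = DihedralGroup.sr (-(lam (τ g))) := fun g h => if_neg (hnotboth g h)
  have e : ∀ x y a : G, x * y * a * (x * y)⁻¹ = x * (y * a * y⁻¹) * x⁻¹ :=
    fun x y a => by group
  have φ_mul : ∀ g ∈ Subgroup.closure D, ∀ g' ∈ Subgroup.closure D,
      φf (g * g') = φf g * φf g' := by
    intro g hg g' hg'
    rcases hsign g hg with hx | hx <;> rcases hsign g' hg' with hy | hy
    · rw [φ_one_of g hx, φ_one_of g' hy,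
        φ_one_of (g * g') (fun a ha => by rw [e, hy a ha, hx a ha]),
        hτmul g g' (τ g') (hx _ (τ g').2), lam_mul, DihedralGroup.r_mul_r]
    · rw [φ_one_of g hx, φ_neg_of g' hy,
        φ_neg_of (g * g') (fun a ha => by rw [e, hy a ha, hx _ (A.inv_mem ha)]),
        hτmul g g' (τ g') (hx _ (τ g').2), lam_mul, DihedralGroup.r_mul_sr]
      congr 1
      ring
    · rw [φ_neg_of g hx, φ_one_of g' hy,
        φ_neg_of (g * g') (fun a ha => by rw [e, hy a ha, hx a ha]),
        hτmul g g' (τ g')⁻¹ (hx _ (τ g').2), lam_mul, lam_inv, DihedralGroup.sr_mul_r]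
      congr 1
      ring
    · rw [φ_neg_of g hx, φ_neg_of g' hy,
        φ_one_of (g * g') (fun a ha => by rw [e, hy a ha, hx _ (A.inv_mem ha), inv_inv]),
        hτmul g g' (τ g')⁻¹ (hx _ (τ g').2), lam_mul, lam_inv, DihedralGroup.sr_mul_sr]
      congr 1
      ring
  let φ : ↥(Subgroup.closure D) →* DihedralGroup p :=
    MonoidHom.mk' (fun g => φf g) (fun g g' => φ_mul g g.2 g' g'.2)
  refine ⟨p, hBp, hpodd, φ, ?_, ?_⟩
  · -- surjectivity
    have hr : ∀ i : ZMod p, ∃ g : ↥(Subgroup.closure D), φ g = DihedralGroup.r i := by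
      intro i
      obtain ⟨a, ha⟩ := lam_surj i
      refine ⟨⟨a, hAcl a.2⟩, ?_⟩
      change φf a = _
      have h4 : τ (a : G) = a := hτ _ _ (by rw [inv_mul_cancel]; exact (stab hD d₀).one_mem)
      rw [φ_one_of (a : G) (fun b hb => by rw [hab _ a.2 _ hb, mul_inv_cancel_right]), h4, ha]
    rintro (i | i)
    · exact hr i
    · obtain ⟨g, hg⟩ := hr (-(lam (τ (d₀ : G))) - i)
      refine ⟨g * ⟨d₀, Subgroup.subset_closure d₀.2⟩, ?_⟩
      rw [map_mul, hg]
      change _ * φf (d₀ : G) = _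
      rw [φ_neg_of (d₀ : G) (h3 d₀ d₀.2), DihedralGroup.r_mul_sr]
      congr 1
      ring
  · intro d hd
    exact ⟨_, φ_neg_of d (h3 d hd)⟩

end keylemma


section induction_step

/-- The quotient of a normal set of involutions by a normal subgroup of odd order. -/
theorem image_involutions {G H : Type} [Group G] [Group H] {D : Set G} (f : G →* H)
    (hf : Function.Surjective f) (hker : Odd (Nat.card f.ker))
    (hinv : ∀ d ∈ D, orderOf d = 2) (hD : ∀ d ∈ D, ∀ g : G, g⁻¹ * d * g ∈ D) :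
    (∀ d ∈ f '' D, orderOf d = 2) ∧ ∀ d ∈ f '' D, ∀ g : H, g⁻¹ * d * g ∈ f '' D := by
  constructor
  · rintro _ ⟨d, hd, rfl⟩
    have h1 : f d ^ 2 = 1 := by
      rw [← map_pow, ← hinv d hd, pow_orderOf_eq_one, map_one]
    refine orderOf_eq_prime h1 ?_
    intro h2
    have h3 : d ∈ f.ker := h2
    have h4 : (⟨d, h3⟩ : f.ker) ^ Nat.card f.ker = 1 := pow_card_eq_one'
    have h5 : d ^ Nat.card f.ker = 1 := by simpa using congrArg Subtype.val h4
    have h6 := orderOf_dvd_of_pow_eq_one h5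
    rw [hinv d hd] at h6
    obtain ⟨k, hk⟩ := hker
    omega
  · rintro _ ⟨d, hd, rfl⟩ g
    obtain ⟨x, rfl⟩ := hf g
    exact ⟨x⁻¹ * d * x, hD d hd x, by simp⟩

theorem exists_minimal_normal {G : Type} [Group G] [Finite G] {N : Subgroup G} (hN : N.Normal)
    (hne : N ≠ ⊥) : ∃ A : Subgroup G, A.Normal ∧ A ≤ N ∧ A ≠ ⊥ ∧
      ∀ B : Subgroup G, B.Normal → B ≤ A → B = ⊥ ∨ B = A := by
  have h1 : ∃ n, ∃ A : Subgroup G, A.Normal ∧ A ≤ N ∧ A ≠ ⊥ ∧ Nat.card ↥A = n :=
    ⟨_, N, hN, le_rfl, hne, rfl⟩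
  classical
  obtain ⟨A, hA, hAN, hAne, hcard⟩ := Nat.find_spec h1
  refine ⟨A, hA, hAN, hAne, ?_⟩
  intro B hB hBA
  by_cases hBb : B = ⊥
  · exact Or.inl hBb
  · right
    have h2 : Nat.find h1 ≤ Nat.card ↥B :=
      Nat.find_min' h1 ⟨B, hB, hBA.trans hAN, hBb, rfl⟩
    rw [← hcard] at h2
    exact Subgroup.eq_of_le_of_card_ge hBA h2

theorem minimal_abelian {G : Type} [Group G] [Finite G] {A : Subgroup G} (hA : A.Normal)
    (hAne : A ≠ ⊥) (hsol : Group.IsSolvable ↥A)
    (hmin : ∀ B : Subgroup G, B.Normal → B ≤ A → B = ⊥ ∨ B = A) :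
    ∀ a ∈ A, ∀ b ∈ A, a * b = b * a := by
  have h1 : (⁅A, A⁆ : Subgroup G).Normal := Subgroup.commutator_normal A A
  have h2 : ⁅A, A⁆ ≤ A := Subgroup.commutator_le_left A A
  rcases hmin _ h1 h2 with h | h
  · intro a ha b hb
    rw [Subgroup.commutator_eq_bot_iff_le_centralizer] at h
    exact (Subgroup.mem_centralizer_iff.mp (h hb) a ha)
  · exfalso
    have hnt : Nontrivial ↥A := (Subgroup.nontrivial_iff_ne_bot A).mpr hAne
    have h3 := Group.IsSolvable.commutator_lt_top_of_nontrivial ↥A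
    apply h3.ne
    apply Subgroup.map_injective A.subtype_injective
    rw [commutator_def, Subgroup.map_commutator, ← MonoidHom.range_eq_map, Subgroup.range_subtype, h]

theorem forward : ∀ (n : ℕ) (G : Type) [Group G] [Finite G] (D : Set G) (N : Subgroup G)
    (_ : N.Normal), D.Nonempty → (∀ d ∈ D, orderOf d = 2) →
    (∀ d ∈ D, ∀ g : G, g⁻¹ * d * g ∈ D) → Group.IsSolvable ↥N → Odd (Nat.card ↥N) →
    Nat.card ↥N = n → ¬ (commGraph D).Connected →
    ¬ (commGraph ((QuotientGroup.mk' N) '' D)).Connected ∨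
    ∃ p : ℕ, p.Prime ∧ Odd p ∧ ∃ φ : ↥(Subgroup.closure D) →* DihedralGroup p,
      Function.Surjective φ ∧ ∀ (d : G) (hd : d ∈ D), ∃ i : ZMod p,
        φ ⟨d, Subgroup.subset_closure hd⟩ = DihedralGroup.sr i := by
  intro n
  induction n using Nat.strong_induction_on with
  | _ n ih =>
  intro G _ _ D N hN hne hinv hD hsol hodd hcard hnc
  by_cases hbot : N = ⊥
  · left
    subst hbot
    intro hc
    apply hnc
    have h1 := connected_image (D := (QuotientGroup.mk' (⊥ : Subgroup G)) '' D)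
      (QuotientGroup.quotientBot (G := G)).toMonoidHom hc
    have h2 : (QuotientGroup.quotientBot (G := G)).toMonoidHom ''
        ((QuotientGroup.mk' (⊥ : Subgroup G)) '' D) = D := by
      rw [Set.image_image]
      have : ∀ x : G, (QuotientGroup.quotientBot (G := G)).toMonoidHom
          ((QuotientGroup.mk' (⊥ : Subgroup G)) x) = x := fun x => rfl
      simp only [this, Set.image_id']
    rw [h2] at h1
    exact h1
  obtain ⟨A, hA, hAN, hAne, hmin⟩ := exists_minimal_normal hN hbot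
  have hsolA : Group.IsSolvable ↥A := Group.isSolvable_of_isSolvable_injective (Subgroup.inclusion_injective hAN)
  have hab := minimal_abelian hA hAne hsolA hmin
  have hoddA : Odd (Nat.card ↥A) := Odd.of_dvd_nat hodd (Subgroup.card_dvd_of_le hAN)
  by_cases hc : (commGraph ((QuotientGroup.mk' A) '' D)).Connected
  · right
    exact key_lemma hne hinv hD hA hab hoddA hAne hmin hc hnc
  -- induction
  have hNbar : (N.map (QuotientGroup.mk' A)).Normal :=
    Subgroup.Normal.map hN _ (QuotientGroup.mk'_surjective A)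
  have hcardlt : Nat.card ↥(N.map (QuotientGroup.mk' A)) < n := by
    have h1 : Nat.card ↥(N.map (QuotientGroup.mk' A)) ≤ Nat.card ↥N :=
      Nat.le_of_dvd Nat.card_pos (Subgroup.card_map_dvd N _)
    rw [← hcard]
    refine lt_of_le_of_ne h1 ?_
    intro h2
    have h3 := ((QuotientGroup.mk' A).subgroupMap_surjective N)
    have h4 : Function.Injective ((QuotientGroup.mk' A).subgroupMap N) :=
      ((Nat.bijective_iff_surjective_and_card _).mpr ⟨h3, h2.symm⟩).1
    apply hAne
    rw [Subgroup.eq_bot_iff_forall]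
    intro a ha
    have h5 : (QuotientGroup.mk' A).subgroupMap N ⟨a, hAN ha⟩ =
        (QuotientGroup.mk' A).subgroupMap N 1 := by
      apply Subtype.ext
      change QuotientGroup.mk' A a = QuotientGroup.mk' A 1
      rw [map_one]
      exact (QuotientGroup.eq_one_iff a).mpr ha
    exact congrArg Subtype.val (h4 h5)
  obtain ⟨himg1, himg2⟩ := image_involutions (QuotientGroup.mk' A)
    (QuotientGroup.mk'_surjective A) (by rw [QuotientGroup.ker_mk']; exact hoddA) hinv hD
  have hsolbar : Group.IsSolvable ↥(N.map (QuotientGroup.mk' A)) :=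
    Group.isSolvable_of_surjective ((QuotientGroup.mk' A).subgroupMap_surjective N)
  have hoddbar : Odd (Nat.card ↥(N.map (QuotientGroup.mk' A))) :=
    Odd.of_dvd_nat hodd (Subgroup.card_map_dvd N _)
  rcases ih _ hcardlt (G ⧸ A) ((QuotientGroup.mk' A) '' D) (N.map (QuotientGroup.mk' A)) hNbar
    (hne.image _) himg1 himg2 hsolbar hoddbar rfl hc with h | ⟨p, hp, hpodd, φ, hφ, hφD⟩
  · left
    intro hcN
    apply h
    -- the map G/N → (G/A)/(N/A)
    let f : G ⧸ N →* (G ⧸ A) ⧸ (N.map (QuotientGroup.mk' A)) :=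
      QuotientGroup.lift N ((QuotientGroup.mk' (N.map (QuotientGroup.mk' A))).comp
        (QuotientGroup.mk' A)) (by
          intro x hx
          rw [MonoidHom.mem_ker, MonoidHom.comp_apply]
          exact (QuotientGroup.eq_one_iff _).mpr (Subgroup.mem_map_of_mem _ hx))
    have h1 := connected_image f hcN
    have h2 : f '' ((QuotientGroup.mk' N) '' D) =
        (QuotientGroup.mk' (N.map (QuotientGroup.mk' A))) '' ((QuotientGroup.mk' A) '' D) := by
      rw [Set.image_image, Set.image_image]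
      rfl
    rw [h2] at h1
    exact h1
  · right
    have hmap : ∀ g ∈ Subgroup.closure D,
        QuotientGroup.mk' A g ∈ Subgroup.closure ((QuotientGroup.mk' A) '' D) := by
      intro g hg
      rw [← MonoidHom.map_closure]
      exact Subgroup.mem_map_of_mem _ hg
    let ψ : ↥(Subgroup.closure D) →* ↥(Subgroup.closure ((QuotientGroup.mk' A) '' D)) :=
      ((QuotientGroup.mk' A).comp (Subgroup.closure D).subtype).codRestrict _
        (fun g => hmap g g.2)
    refine ⟨p, hp, hpodd, φ.comp ψ, ?_, ?_⟩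
    · rw [MonoidHom.coe_comp]
      refine hφ.comp ?_
      rintro ⟨y, hy⟩
      have hy' := hy
      rw [← MonoidHom.map_closure] at hy'
      obtain ⟨x, hx, rfl⟩ := hy'
      exact ⟨⟨x, hx⟩, rfl⟩
    · intro d hd
      obtain ⟨i, hi⟩ := hφD (QuotientGroup.mk' A d) ⟨d, hd, rfl⟩
      exact ⟨i, hi⟩

end induction_step

/-- **Odd core reduction.** Let `D` be a nonempty normal set of involutions of the finite group `G`
and `N` a normal soluble subgroup of odd order. The commuting graph on `D` is disconnected if and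
only if the commuting graph on the image of `D` in `G ⧸ N` is disconnected, or the group generated
by `D` has a dihedral quotient of order `2 p`, `p` an odd prime, in which every element of `D`
becomes a reflection. -/
theorem result {G : Type} [Group G] [Finite G] (D : Set G) (hD : IsNormalInvolutionSet D)
    (N : Subgroup G) [N.Normal] (hsol : Group.IsSolvable ↥N) (hodd : Odd (Nat.card ↥N)) :
    ¬ (commGraph D).Connected ↔
      ¬ (commGraph ((QuotientGroup.mk' N) '' D)).Connected ∨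
      ∃ p : ℕ, p.Prime ∧ Odd p ∧ ∃ φ : ↥(Subgroup.closure D) →* DihedralGroup p,
        Function.Surjective φ ∧ ∀ (d : G) (hd : d ∈ D), ∃ i : ZMod p,
          φ ⟨d, Subgroup.subset_closure hd⟩ = DihedralGroup.sr i := by
  constructor
  · intro h
    exact forward _ G D N inferInstance hD.1 hD.2.1 hD.2.2 hsol hodd rfl h
  · rintro (h | ⟨p, hp, hpodd, φ, hφ, hφD⟩)
    · exact fun hc => h (connected_image _ hc)
    · exact not_connected_of_dihedral hp hpodd φ hφ hφD

end Pool.Agent.Results.MP_af8aea_al.OddCoreReduction
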