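import Pool.Agent.Lib.Paf8H.Red

set_option autoImplicit false

/-!
Deciding whether the commuting graph of a normal set of involutions is connected is NP-hard, even
if the set generates the group, the group is a 2-group and the set is given as the union of the
conjugacy classes of the given generators.
-/

namespace Pool.Agent.Results.MP_af8aea_al.RecognitionHard

open Pool.Agent.Paf8U Pool.Agent.Lib.Paf8H Pool.Agent.Lib.P2ba8ab

/-- There is a map `f`, computed by a Turing machine in polynomial time, that sends a finite simple
graph `g` to permutations `s 0, …, s k` of `{0, …, n - 1}` with the following properties, where `G`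
is the group generated by the `s i` and `D` is the union of the conjugacy classes of the `s i` in
`G`: `x ^ 16 = 1` for all `x ∈ G`; `D` is a normal set of involutions of `G` and generates `G`; and
`Γ(D)` is connected if and only if `g` is 3-colourable. -/
theorem result : ∃ f : Gr → PG,
    Nonempty (Turing.TM2ComputableInPolyTime Gr.encode PG.encode f) ∧
      ∀ g : Gr, (∀ x : grp (f g).s, x ^ 16 = 1) ∧ IsNormalInvolutionSet (clsAll (f g).s) ∧
        Subgroup.closure (clsAll (f g).s) = ⊤ ∧
        ((commGraph (clsAll (f g).s)).Connected ↔ g.G.Colorable 3) :=
  hardness

end Pool.Agent.Results.MP_af8aea_al.RecognitionHard
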